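import Pool.Agent.L7h71.GB.Stm2

set_option autoImplicit false

/-! Project GB, part FOE. -/

namespace Pool.Agent.L7h44.GB

open Set Function FirstOrder FirstOrder.Language
open Pool.Agent.L7h71.UN (IsEU)
open Pool.Agent.L7h71.GB

section gen

variable {L : FirstOrder.Language.{0, 0}} {M N : Type} [L.Structure M] [L.Structure N]

theorem comp_emp {A B : Type} (f : A → B) (v : Empty → A) (w : Empty → B) : f ∘ v = w :=
  Subsingleton.elim _ _

/-- `∀∃` formulas which hold in cofinally many finite substructures hold. -/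
theorem ue_real {n : ℕ} {φ : L.BoundedFormula Empty n} (h : IsUE φ) {v : Empty → N}
    {xs : Fin n → N} (hA : ∀ X : Finset N, ∃ A : L.Substructure N, (∀ x ∈ X, x ∈ A) ∧
      ∃ (v' : Empty → A) (xs' : Fin n → A), (fun i => (xs' i : N)) = xs ∧ φ.Realize v' xs') :
    φ.Realize v xs := by
  classical
  induction h with
  | of_isExistential hE =>
    obtain ⟨A, -, v', xs', rfl, h3⟩ := hA ∅
    have h4 := hE.realize_embedding A.subtype h3
    rwa [comp_emp A.subtype v' v] at h4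
  | all _ ih =>
    rw [BoundedFormula.realize_all]
    intro a
    refine ih fun X => ?_
    obtain ⟨A, h1, v', xs', rfl, h3⟩ := hA (insert a X)
    refine ⟨A, fun x hx => h1 x (Finset.mem_insert_of_mem hx), v',
      Fin.snoc (α := fun _ => A) xs' ⟨a, h1 a (Finset.mem_insert_self _ _)⟩, ?_, ?_⟩
    · funext i
      refine Fin.lastCases ?_ (fun j => ?_) i
      · simp only [Fin.snoc_last]
      · simp only [Fin.snoc_castSucc]
    · exact h3 _

/-- Universal formulas which hold in `M` at the images of a tuple hold in `N`. -/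
theorem univ_real {n : ℕ} {φ : L.BoundedFormula Empty n} (h : φ.IsUniversal) {v : Empty → N}
    {xs : Fin n → N}
    (hA : ∀ X : Finset N, ∃ A : L.Substructure N, (∀ x ∈ X, x ∈ A) ∧ ∃ g : A ↪[L] M,
      ∃ (w : Empty → M) (xs' : Fin n → A), (fun i => (xs' i : N)) = xs ∧
        φ.Realize w (g ∘ xs')) :
    φ.Realize v xs := by
  classical
  induction h with
  | of_isQF hQ =>
    obtain ⟨A, -, g, w, xs', rfl, h3⟩ := hA ∅
    have h4 := hQ.realize_embedding g (v := fun i => i.elim) (xs := xs')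
    rw [comp_emp g _ w] at h4
    have h5 := hQ.realize_embedding A.subtype (v := fun i => i.elim) (xs := xs')
    rw [comp_emp A.subtype _ v] at h5
    exact h5.2 (h4.1 h3)
  | all _ ih =>
    rw [BoundedFormula.realize_all]
    intro a
    refine ih fun X => ?_
    obtain ⟨A, h1, g, w, xs', rfl, h3⟩ := hA (insert a X)
    refine ⟨A, fun x hx => h1 x (Finset.mem_insert_of_mem hx), g, w,
      Fin.snoc (α := fun _ => A) xs' ⟨a, h1 a (Finset.mem_insert_self _ _)⟩, ?_, ?_⟩
    · funext i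
      refine Fin.lastCases ?_ (fun j => ?_) i
      · simp only [Fin.snoc_last]
      · simp only [Fin.snoc_castSucc]
    · rw [Fin.comp_snoc]
      exact h3 _

end gen

variable {L : FirstOrder.Language.{0, 0}}

/-- the hypothesis on `S'` -/
def Cof (S S' : L.Structure ℕ) (F : Finset ℕ) : Prop :=
  ∀ X : Finset ℕ, ∃ A : @Substructure L ℕ S', (∀ x ∈ X, x ∈ (A : Set ℕ)) ∧ (∀ x ∈ F, x ∈ (A : Set ℕ)) ∧
    ∃ g : @Embedding L A ℕ (@Substructure.inducedStructure L ℕ S' A) S,
      ∀ p : A, (p : ℕ) ∈ F → g p = p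

theorem eu_real {n : ℕ} {φ : L.BoundedFormula Empty n} (h : IsEU φ) (S : L.Structure ℕ)
    {v : Empty → ℕ} {xs : Fin n → ℕ} {F₀ : Finset ℕ} (hxs : ∀ i, xs i ∈ F₀)
    (hr : @BoundedFormula.Realize L ℕ S Empty n φ v xs) :
    ∃ F₁ : Finset ℕ, F₀ ⊆ F₁ ∧ ∀ (S' : L.Structure ℕ) (F : Finset ℕ), F₁ ⊆ F → Cof S S' F →
      @BoundedFormula.Realize L ℕ S' Empty n φ v xs := by
  classical
  induction h generalizing F₀ with
  | of_isUniversal hU =>
    refine ⟨F₀, subset_rfl, fun S' F hF hS' => ?_⟩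
    refine @univ_real L ℕ ℕ S S' _ _ hU v xs ?_
    intro X
    obtain ⟨A, h1, h2, g, h3⟩ := hS' X
    refine ⟨A, h1, g, v, fun i => ⟨xs i, h2 _ (hF (hxs i))⟩, rfl, ?_⟩
    convert hr using 1
    funext i
    exact h3 ⟨xs i, h2 _ (hF (hxs i))⟩ (hF (hxs i))
  | ex _ ih =>
    rw [@BoundedFormula.realize_ex] at hr
    obtain ⟨b, hb⟩ := hr
    obtain ⟨F₁, h1, h2⟩ := ih (F₀ := insert b F₀) (by
      intro i
      refine Fin.lastCases ?_ (fun j => ?_) i
      · rw [Fin.snoc_last]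
        exact Finset.mem_insert_self _ _
      · rw [Fin.snoc_castSucc]
        exact Finset.mem_insert_of_mem (hxs j)) hb
    refine ⟨F₁, (Finset.subset_insert _ _).trans h1, fun S' F hF hS' => ?_⟩
    rw [@BoundedFormula.realize_ex]
    exact ⟨b, h2 S' F hF hS'⟩

open Pool.Agent.L7h71.UN (sent_iff)

theorem s_FOE : S_FOE := by
  classical
  intro L T₁ T₂ h1 h2 hfin S hS
  have hS2 : ∀ φ ∈ T₂, @Sentence.Realize L ℕ S φ := fun φ hφ =>
    @Theory.realize_sentence_of_mem L ℕ S (T₁ ∪ T₂) hS φ (Or.inr hφ)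
  have h3 : ∀ φ ∈ T₂, ∃ F : Finset ℕ, ∀ (S' : L.Structure ℕ) (F' : Finset ℕ), F ⊆ F' →
      Cof S S' F' → @Sentence.Realize L ℕ S' φ := by
    intro φ hφ
    obtain ⟨F, -, h⟩ := eu_real (h2 φ hφ) S (v := default) (xs := default) (F₀ := ∅)
      (fun i => i.elim0)
      ((sent_iff S φ _ _).1 (hS2 φ hφ))
    exact ⟨F, fun S' F' hF hS' => (sent_iff S' φ _ _).2 (h S' F' hF hS')⟩
  choose! F hF using h3
  refine ⟨hfin.toFinset.biUnion F, fun S' hS' => ?_⟩
  have hcof : Cof S S' (hfin.toFinset.biUnion F) := by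
    intro X
    obtain ⟨X', hX, hFX, ⟨A, hA, -⟩, e, he, hE⟩ := hS' X
    have hm : ∀ x, x ∈ A ↔ x ∈ X' := fun x => by
      rw [← SetLike.mem_coe, hA, Finset.mem_coe]
    refine ⟨A, fun x hx => (hm x).2 (hX hx), fun x hx => (hm x).2 (hFX hx), ?_⟩
    refine ⟨@Embedding.mk L A ℕ (@Substructure.inducedStructure L ℕ S' A) S
      ⟨fun x => e x, fun x y hxy => Subtype.ext (hE.inj ((hm _).1 x.2) ((hm _).1 y.2) hxy)⟩ ?_ ?_,
      fun p hp => he p hp⟩
    · intro n f x
      exact hE.fn n f (fun j => (x j : ℕ)) fun j => (hm _).1 (x j).2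
    · intro n r x
      exact hE.rel n r (fun j => (x j : ℕ)) fun j => (hm _).1 (x j).2
  refine (@Theory.model_iff L ℕ S' (T₁ ∪ T₂)).2 fun φ hφ => ?_
  rcases hφ with hφ | hφ
  · refine (sent_iff S' φ default default).2 (@ue_real L ℕ S' 0 φ (h1 φ hφ) default default fun X => ?_)
    obtain ⟨X', hX, -, ⟨A, hA, hAT⟩, -⟩ := hS' X
    refine ⟨A, fun x hx => ?_, default, default, Subsingleton.elim _ _, ?_⟩
    · show x ∈ (A : Set ℕ)
      rw [hA]
      exact hX hx
    · exact @Theory.realize_sentence_of_mem L A (@Substructure.inducedStructure L ℕ S' A) T₁ hAT φ hφ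
  · exact hF φ hφ S' _ (Finset.subset_biUnion_of_mem F (hfin.mem_toFinset.2 hφ)) hcof

end Pool.Agent.L7h44.GB
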