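import Pool.Agent.L7h71.GB.Stm2

set_option autoImplicit false

/-! Project GB, part FOM. -/

namespace Pool.Agent.L7h44.GB

open Set Function MeasureTheory FirstOrder FirstOrder.Language
open Pool.Agent.H533R2.VO (RS)
open Pool.Agent.W889.VC (BP)
open Pool.Agent.W889.FO.St0 (RF LF gr W D fun_iff)
open Pool.Agent.R617.VT (ar dc ar_e)
open Pool.Agent.L7h71.GB

variable {L : FirstOrder.Language.{0, 0}} {e : (Σ n, (LF L).Relations n) → ℕ}
  (he : Function.Injective e)

section dec

variable {V : Type}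

/-- the graph of a function symbol -/
def grV (s : ∀ i, (Fin (ar e i) → V) → Bool) {n : ℕ} (F : L.Functions n) (v : Fin n → V) (b : V) :
    Prop :=
  s (e ⟨n + 1, RF.fn F⟩) (fun k => Fin.snoc (α := fun _ => V) v b
    (Fin.cast (ar_e he ⟨n + 1, RF.fn F⟩) k)) = true

/-- the relations -/
def rlV (s : ∀ i, (Fin (ar e i) → V) → Bool) {n : ℕ} (R : L.Relations n) (v : Fin n → V) : Prop :=
  s (e ⟨n, RF.rel R⟩) (fun k => v (Fin.cast (ar_e he ⟨n, RF.rel R⟩) k)) = true

/-- the graphs are graphs of functions -/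
def FunV (s : ∀ i, (Fin (ar e i) → V) → Bool) : Prop :=
  ∀ (F : Σ n, L.Functions n) (v : Fin F.1 → V), ∃! b, grV he s F.2 v b

/-- decoding -/
@[reducible] noncomputable def DV (s : ∀ i, (Fin (ar e i) → V) → Bool) (hs : FunV he s) :
    L.Structure V where
  funMap := fun {n} F v => (hs ⟨n, F⟩ v).exists.choose
  RelMap := fun {_} R v => rlV he s R v

theorem fun_iffV {s : ∀ i, (Fin (ar e i) → V) → Bool} (hs : FunV he s) {n : ℕ} (F : L.Functions n)
    (v : Fin n → V) (b : V) :
    @Structure.funMap L V (DV he s hs) n F v = b ↔ grV he s F v b := by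
  have h1 : grV he s F v (@Structure.funMap L V (DV he s hs) n F v) :=
    (hs ⟨n, F⟩ v).exists.choose_spec
  constructor
  · rintro rfl
    exact h1
  · intro h
    exact (hs ⟨n, F⟩ v).unique h1 h

/-! ### measurability -/

theorem bp_at (i : ℕ) (v : Fin (ar e i) → V) :
    BP (fun s : ∀ i, (Fin (ar e i) → V) → Bool => s i v = true) := by
  have h1 : Measurable fun s : ∀ i, (Fin (ar e i) → V) → Bool => s i v :=
    (measurable_pi_apply v).comp (measurable_pi_apply i)
  exact h1 (measurableSet_singleton true)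

theorem bp_gr {n : ℕ} (F : L.Functions n) (v : Fin n → V) (b : V) :
    BP (fun s : ∀ i, (Fin (ar e i) → V) → Bool => grV he s F v b) := bp_at _ _

theorem bp_rl {n : ℕ} (R : L.Relations n) (v : Fin n → V) :
    BP (fun s : ∀ i, (Fin (ar e i) → V) → Bool => rlV he s R v) := bp_at _ _

variable [Countable V] [Countable (Σ n, L.Functions n)]

theorem bp_fun : BP (fun s : ∀ i, (Fin (ar e i) → V) → Bool => FunV he s) :=
  BP.all fun F => BP.all fun v => BP.ex fun b =>
    (bp_gr he F.2 v b).and (BP.all fun b' => (bp_gr he F.2 v b').imp (BP.const (b' = b)))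

theorem bp_term {β : Type} (t : L.Term β) (v : β → V) (b : V) :
    BP (fun s : ∀ i, (Fin (ar e i) → V) → Bool =>
      ∃ hs : FunV he s, @Term.realize L V (DV he s hs) β v t = b) := by
  induction t generalizing b with
  | var i => exact ((bp_fun he).and (BP.const (v i = b))).congr fun s =>
      ⟨fun ⟨h1, h2⟩ => ⟨h1, h2⟩, fun ⟨h1, h2⟩ => ⟨h1, h2⟩⟩
  | @func n F ts ih =>
    refine (BP.ex fun w : Fin n → V => (BP.all fun i => ih i (w i)).and
      ((bp_fun he).and (bp_gr he F w b))).congr fun s => ⟨?_, ?_⟩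
    · rintro ⟨w, h1, hs, h2⟩
      refine ⟨hs, ?_⟩
      have h3 : (fun i => @Term.realize L V (DV he s hs) β v (ts i)) = w := by
        funext i
        obtain ⟨_, h⟩ := h1 i
        exact h
      show @Structure.funMap L V (DV he s hs) n F
        (fun i => @Term.realize L V (DV he s hs) β v (ts i)) = b
      rw [h3]
      exact (fun_iffV he hs F w b).2 h2
    · rintro ⟨hs, h⟩
      exact ⟨fun i => @Term.realize L V (DV he s hs) β v (ts i), fun i => ⟨hs, rfl⟩, hs,
        (fun_iffV he hs F _ b).1 h⟩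

theorem bp_form {α : Type} {n : ℕ} (φ : L.BoundedFormula α n) (v : α → V) (xs : Fin n → V) :
    BP (fun s : ∀ i, (Fin (ar e i) → V) → Bool =>
      ∃ hs : FunV he s, @BoundedFormula.Realize L V (DV he s hs) α n φ v xs) := by
  induction φ with
  | falsum => exact (BP.const False).congr fun s => ⟨fun h => h.elim, fun ⟨_, h⟩ => h⟩
  | equal t₁ t₂ =>
    refine (BP.ex fun b : V => (bp_term he t₁ (Sum.elim v xs) b).and
      (bp_term he t₂ (Sum.elim v xs) b)).congr fun s => ⟨?_, ?_⟩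
    · rintro ⟨b, ⟨hs, h1⟩, _, h2⟩
      exact ⟨hs, h1.trans h2.symm⟩
    · rintro ⟨hs, h⟩
      exact ⟨_, ⟨hs, h⟩, hs, rfl⟩
  | @rel n m R ts =>
    refine (BP.ex fun w : Fin m → V => (BP.all fun i => bp_term he (ts i) (Sum.elim v xs) (w i)).and
      ((bp_fun he).and (bp_rl he R w))).congr fun s => ⟨?_, ?_⟩
    · rintro ⟨w, h1, hs, h2⟩
      refine ⟨hs, ?_⟩
      have h3 : (fun i => @Term.realize L V (DV he s hs) _ (Sum.elim v xs) (ts i)) = w := by
        funext i
        obtain ⟨_, h⟩ := h1 i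
        exact h
      show rlV he s R (fun i => @Term.realize L V (DV he s hs) _ (Sum.elim v xs) (ts i))
      rw [h3]
      exact h2
    · rintro ⟨hs, h⟩
      exact ⟨fun i => @Term.realize L V (DV he s hs) _ (Sum.elim v xs) (ts i), fun i => ⟨hs, rfl⟩,
        hs, h⟩
  | imp _ _ ih1 ih2 =>
    exact ((bp_fun he).and ((ih1 xs).imp (ih2 xs))).congr fun s =>
      ⟨fun ⟨hs, h⟩ => ⟨hs, fun h1 => (h ⟨hs, h1⟩).2⟩, fun ⟨hs, h⟩ => ⟨hs, fun ⟨_, h1⟩ => ⟨hs, h h1⟩⟩⟩
  | all _ ih =>
    exact ((bp_fun he).and (BP.all fun a : V => ih (Fin.snoc xs a))).congr fun s =>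
      ⟨fun ⟨hs, h⟩ => ⟨hs, fun a => (h a).2⟩, fun ⟨hs, h⟩ => ⟨hs, fun a => ⟨hs, h a⟩⟩⟩

omit [Countable (Σ n, L.Functions n)] in
theorem countable_sentence (hL : Countable L.Symbols) : Countable L.Sentence := by
  have h3 : Cardinal.mk (Σ n, L.BoundedFormula Empty n) ≤ Cardinal.aleph0 := by
    refine BoundedFormula.card_le.trans ?_
    refine max_le le_rfl ?_
    rw [Cardinal.mk_eq_zero Empty]
    simp only [zero_add, Cardinal.lift_id]
    exact Cardinal.mk_le_aleph0
  have h4 : Countable (Σ n, L.BoundedFormula Empty n) := Cardinal.mk_le_aleph0_iff.1 h3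
  exact (sigma_mk_injective (β := fun n => L.BoundedFormula Empty n) (i := 0)).countable

theorem bp_theory (hL : Countable L.Symbols) (T : L.Theory) :
    BP (fun s : ∀ i, (Fin (ar e i) → V) → Bool =>
      ∃ hs : FunV he s, @Theory.Model L V (DV he s hs) T) := by
  have hsc : Countable L.Sentence := countable_sentence hL
  have hT' : Countable T := Subtype.countable
  refine ((bp_fun he).and (BP.all fun φ : T => bp_form he φ.1 (default : Empty → V)
    (default : Fin 0 → V))).congr fun s => ⟨?_, ?_⟩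
  · rintro ⟨hs, h⟩
    refine ⟨hs, (@Theory.model_iff L V (DV he s hs) T).2 fun φ hφ => ?_⟩
    exact (h ⟨φ, hφ⟩).2
  · rintro ⟨hs, h⟩
    exact ⟨hs, fun φ => ⟨hs, (@Theory.model_iff L V (DV he s hs) T).1 h φ.1 φ.2⟩⟩

end dec

section sub

variable {V : Type} {y : RS (ar e)} {u : V → ℕ}

theorem gr_iff {n : ℕ} (F : L.Functions n) (w : Fin n → V) (c : V) :
    grV he (fun i t => y i (u ∘ t)) F w c ↔ gr (dc he y) F (u ∘ w) (u c) := by
  show y _ (u ∘ fun k => Fin.snoc (α := fun _ => V) w c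
    (Fin.cast (ar_e he ⟨n + 1, RF.fn F⟩) k)) = true ↔
    y _ (fun k => Fin.snoc (α := fun _ => ℕ) (u ∘ w) (u c)
      (Fin.cast (ar_e he ⟨n + 1, RF.fn F⟩) k)) = true
  have h : (u ∘ fun k => Fin.snoc (α := fun _ => V) w c
      (Fin.cast (ar_e he ⟨n + 1, RF.fn F⟩) k)) = (fun k => Fin.snoc (α := fun _ => ℕ) (u ∘ w) (u c)
      (Fin.cast (ar_e he ⟨n + 1, RF.fn F⟩) k)) := by
    funext k
    exact congrFun (Fin.comp_snoc u w c) (Fin.cast (ar_e he ⟨n + 1, RF.fn F⟩) k)
  rw [h]

theorem model_iff' (hW : W (dc he y)) (hu : Function.Injective u)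
    (A : @Substructure L ℕ (D (dc he y))) (hA : ∀ x, x ∈ A ↔ x ∈ range u)
    (hs : FunV he (fun i t => y i (u ∘ t))) (T : L.Theory) :
    @Theory.Model L V (DV he _ hs) T ↔
      @Theory.Model L A (@Substructure.inducedStructure L ℕ (D (dc he y)) A) T := by
  let f : V ≃ A := Equiv.ofBijective (fun x => ⟨u x, (hA _).2 ⟨x, rfl⟩⟩)
    ⟨fun a b h => hu (congrArg Subtype.val h), fun ⟨x, hx⟩ => by
      obtain ⟨a, rfl⟩ := (hA x).1 hx
      exact ⟨a, rfl⟩⟩
  let E : @FirstOrder.Language.Equiv L V A (DV he _ hs)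
      (@Substructure.inducedStructure L ℕ (D (dc he y)) A) :=
    @FirstOrder.Language.Equiv.mk L V A (DV he _ hs)
      (@Substructure.inducedStructure L ℕ (D (dc he y)) A) f
      (fun {n} F x => Subtype.ext (by
        have h1 := (gr_iff he F x _).1 ((fun_iffV he hs F x _).1 rfl)
        exact ((fun_iff hW F (u ∘ x) _).2 h1).symm))
      (fun {n} R x => Iff.rfl)
  constructor
  · intro h
    exact @StrongHomClass.theory_model L V A (DV he _ hs)
      (@Substructure.inducedStructure L ℕ (D (dc he y)) A) T _ _ _ E h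
  · intro h
    exact @StrongHomClass.theory_model L A V
      (@Substructure.inducedStructure L ℕ (D (dc he y)) A) (DV he _ hs) T _ _ _
      (@FirstOrder.Language.Equiv.symm L V A (DV he _ hs)
        (@Substructure.inducedStructure L ℕ (D (dc he y)) A) E) h

end sub

theorem range_of {b : Finset ℕ} {u : Fin b.card → ℕ} (hu : Function.Injective u)
    (hb : ∀ j, u j ∈ b) (x : ℕ) : x ∈ b ↔ x ∈ range u := by
  classical
  have h1 : Finset.univ.image u = b := by
    refine Finset.eq_of_subset_of_card_le (fun x hx => ?_) ?_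
    · obtain ⟨j, -, rfl⟩ := Finset.mem_image.1 hx
      exact hb j
    · rw [Finset.card_image_of_injective _ hu, Finset.card_univ, Fintype.card_fin]
  constructor
  · intro h
    rw [← h1] at h
    obtain ⟨j, -, rfl⟩ := Finset.mem_image.1 h
    exact ⟨j, rfl⟩
  · rintro ⟨j, rfl⟩
    exact hb j

theorem s_FOM : S_FOM := by
  intro L hL T e he
  have h1 : Countable (Σ n, L.Functions n) := by
    have h2 : Countable ((Σ n, L.Functions n) ⊕ Σ n, L.Relations n) := hL
    exact (Sum.inl_injective (α := Σ n, L.Functions n) (β := Σ n, L.Relations n)).countable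
  refine ⟨fun n => {s | ∃ hs : FunV he s, @Theory.Model L (Fin n) (DV he s hs) T},
    fun n => bp_theory he hL T, fun y => ⟨fun hW b => ⟨?_, ?_⟩, ?_⟩⟩
  · rintro ⟨u, hu, hub, hs, hT⟩
    have hr := range_of hu hub
    have hcl : ∀ {n : ℕ} (F : L.Functions n) (x : Fin n → ℕ), (∀ i, x i ∈ (b : Set ℕ)) →
        @Structure.funMap L ℕ (D (dc he y)) n F x ∈ (b : Set ℕ) := by
      intro n F x hx
      choose w hw using fun i => (hr (x i)).1 (hx i)
      obtain rfl : u ∘ w = x := funext hw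
      obtain ⟨c, hc, -⟩ := hs ⟨n, F⟩ w
      rw [(fun_iff hW F (u ∘ w) (u c)).2 ((gr_iff he F w c).1 hc)]
      exact hub c
    let A : @Substructure L ℕ (D (dc he y)) :=
      @Substructure.mk L ℕ (D (dc he y)) (b : Set ℕ) (fun {n} F x hx => hcl F x hx)
    exact ⟨A, rfl, (model_iff' he hW hu A hr hs T).1 hT⟩
  · rintro ⟨A, hA, hT⟩
    obtain ⟨u, hu, hub⟩ : ∃ u : Fin b.card → ℕ, Function.Injective u ∧ ∀ j, u j ∈ b :=
      ⟨fun j => (b.equivFin.symm j : b), Subtype.val_injective.comp b.equivFin.symm.injective,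
        fun j => (b.equivFin.symm j).2⟩
    have hr := range_of hu hub
    have hm : ∀ x, x ∈ A ↔ x ∈ b := fun x => by
      rw [← SetLike.mem_coe, hA, Finset.mem_coe]
    have hs : FunV he (fun i t => y i (u ∘ t)) := by
      intro F w
      have h2 : @Structure.funMap L ℕ (D (dc he y)) F.1 F.2 (u ∘ w) ∈ A :=
        @Substructure.fun_mem L ℕ (D (dc he y)) A F.1 F.2 (u ∘ w) fun i => (hm _).2 (hub _)
      obtain ⟨c, hc⟩ := (hr _).1 ((hm _).1 h2)
      have h3 : gr (dc he y) F.2 (u ∘ w) (u c) := (fun_iff hW F.2 (u ∘ w) (u c)).1 hc.symm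
      refine ⟨c, (gr_iff he F.2 w c).2 h3, fun c' hc' => hu ?_⟩
      exact hW.un F (u ∘ w) _ _ ((gr_iff he F.2 w c').1 hc') h3
    exact ⟨u, hu, hub, hs,
      (model_iff' he hW hu A (fun x => (hm x).trans (hr x)) hs T).2 hT⟩
  · rintro b ⟨u, hu, hub, hs, -⟩ n F v hv
    have hr := range_of hu hub
    choose w hw using fun i => (hr (v i)).1 (hv i)
    obtain rfl : u ∘ w = v := funext hw
    obtain ⟨c, hc, -⟩ := hs ⟨n, F⟩ w
    exact ⟨u c, hub c, (gr_iff he F w c).1 hc⟩

end Pool.Agent.L7h44.GB
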